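import Pool.Agent.helper80.SG.Spec2

/-!
# Project sq: (MP_b5a345_ag), module SC2: the critical numbers of points (quadratic threshold)
-/

set_option autoImplicit false
set_option linter.unusedSectionVars false

namespace Pool.Agent.SG

open MvPolynomial Module Pool.Agent.SV

theorem SC2_card (k : ℕ) (n : Fin k → ℕ) (i : Fin k) :
    ((Finset.univ : Finset (Var n)).filter (fun w => w.1 = i)).card = n i + 1 := by
  have h : (Finset.univ : Finset (Var n)).filter (fun w => w.1 = i) =
      (Finset.univ : Finset (Fin (n i + 1))).map (Function.Embedding.sigmaMk i) := by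
    ext ⟨a, b⟩
    rw [Finset.mem_filter, Finset.mem_map]
    constructor
    · rintro ⟨-, h⟩
      change a = i at h
      subst h
      exact ⟨b, Finset.mem_univ _, rfl⟩
    · rintro ⟨b', -, h⟩
      exact ⟨Finset.mem_univ _, (congrArg Sigma.fst h).symm⟩
  rw [h, Finset.card_map, Finset.card_univ, Fintype.card_fin]

theorem SC2_mc (a b : ℕ) : Nat.multichoose (a + 1) b = (a + b).choose a := by
  rw [Nat.multichoose_eq, show a + 1 + b - 1 = a + b by omega]
  rw [← Nat.choose_symm_of_eq_add (show a + b = b + a by omega)]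

theorem SC2 (hCMP : CNP_stmt) (hASM : ASM_stmt) (hASG : AG2_stmt) (hDIM : DIM_stmt)
    (hGAL : GAL_stmt) (hMHS : MHS_stmt) : SC2_stmt := by
  intro k n d hn hd j hj hnj T hjT hT3 hM r hr
  set c : Var n → Fin k := Sigma.fst with hc
  set M : ℕ := ∏ i ∈ Finset.univ.erase j, (n i + d i).choose (n i) with hMdef
  have hlow : ∀ i, i ≠ j → low d j i = d i := fun i hi => Function.update_of_ne hi _ _
  have hlowj : low d j j = 0 := by
    show Function.update d j (d j - 1) j = 0
    rw [Function.update_self, hj]
  -- dimensions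
  have hF : finrank ℂ (MultiHom n d) = (n j + 1) * M := by
    rw [hMHS k n d, hDIM, ← Finset.mul_prod_erase _ _ (Finset.mem_univ j), SC2_card, hj,
      Nat.multichoose_one_right]
    congr 1
    refine Finset.prod_congr rfl fun i _ => ?_
    rw [SC2_card, SC2_mc]
  have hF0 : finrank ℂ (Sec c Finset.univ (low d j)) = M := by
    rw [hDIM, ← Finset.mul_prod_erase _ _ (Finset.mem_univ j), hlowj,
      Nat.multichoose_zero_right, one_mul]
    refine Finset.prod_congr rfl fun i hi => ?_
    rw [hlow i (Finset.ne_of_mem_erase hi), SC2_card, SC2_mc]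
  have hsum : ∑ i, n i = n j + ∑ i ∈ Finset.univ.erase j, n i :=
    (Finset.add_sum_erase _ _ (Finset.mem_univ j)).symm
  set n' : ℕ := ∑ i ∈ Finset.univ.erase j, n i with hn'
  have hDk : Dk c Finset.univ (low d j) = n' + 1 := by
    unfold Dk
    have h1 : Finset.univ.filter (fun k => 1 ≤ low d j k) = Finset.univ.erase j := by
      ext i
      rw [Finset.mem_filter, Finset.mem_erase]
      constructor
      · rintro ⟨-, h⟩
        refine ⟨?_, Finset.mem_univ _⟩
        rintro rfl
        omega
      · rintro ⟨h, -⟩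
        refine ⟨Finset.mem_univ _, ?_⟩
        rw [hlow i h]
        exact hd i
    rw [h1, add_comm]
    congr 1
    refine Finset.sum_congr rfl fun i _ => ?_
    rw [SC2_card]
    omega
  have hTne : T.Nonempty := by
    rw [Finset.nonempty_iff_ne_empty]
    rintro rfl
    simp at hT3
  have hn'1 : 1 ≤ n' := by
    obtain ⟨i, hi⟩ := hTne
    have hij : i ≠ j := fun h => hjT (h ▸ hi)
    calc 1 ≤ n i := hn i
      _ ≤ n' := Finset.single_le_sum (f := n) (fun _ _ => Nat.zero_le _)
          (Finset.mem_erase.2 ⟨hij, Finset.mem_univ i⟩)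
  rw [hF, hsum] at hr
  rw [hsum, show n j + n' - n j = n' by omega] at hM
  rw [hF, hsum]
  obtain ⟨R, g, comp, src, tgt, host, A, e, hRg, hst, hwin, hwin2, he, heA, hesum⟩ :=
    hASG (C := Fin (n j + 1)) (n j) n' M r (Fintype.card_fin _) hnj hn'1 hM hr
  -- one component
  have hTd : ∀ i ∈ T, i ≠ j := fun i hi h => hjT (h ▸ hi)
  have hgen : ∀ v : Fin (n j + 1), Gen (fun Z : (Fin R → Var n → ℂ) ×
      (Fin g → (Var n → ℂ) × (Var n → ℂ)) =>
      finrank ℂ (LinearMap.ker (compL c T (low d j) (fun l => decide (comp l = v))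
        (fun γ => roleOf (src γ) (tgt γ) (host γ) v) Z)) ≤
      M - (Finset.univ.filter (fun l : Fin R => decide (comp l = v) = true)).card * (n' + 1)
        - ∑ γ, rk (n' + 1) (roleOf (src γ) (tgt γ) (host γ) v)
        - (Finset.univ.filter (fun l : Fin R => decide (comp l = v) = false)).card) := by
    intro v
    have h1 := hCMP c T (low d j) (fun i => ⟨⟨i, 0⟩, rfl⟩)
      (fun i hi => by rw [hlow i (hTd i hi)]; exact hd i)
      (fun i hi => ⟨⟨i, 0⟩, ⟨i, Fin.last (n i)⟩, by
        intro h
        have h2 := (Sigma.mk.inj_iff.1 h).2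
        have h3 := eq_of_heq h2
        have h4 := congrArg Fin.val h3
        rw [Fin.val_last] at h4
        have := hn i
        simp at h4
        omega, rfl, rfl⟩)
      (by rw [← hT3]; exact Finset.sum_congr rfl fun i hi => hlow i (hTd i hi))
      (by rw [hDk]; omega)
      (L := Fin R) (Γ := Fin g) (fun l => decide (comp l = v))
      (fun γ => roleOf (src γ) (tgt γ) (host γ) v) (by
        rw [hDk, hF0]
        have := hwin v
        simpa using this) (by
        rw [hDk, hF0]
        exact hwin2 v)
    rw [hDk, hF0] at h1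
    exact h1
  obtain ⟨⟨Z, hZ⟩, -⟩ := hGAL _ hgen
  have hZ' : ∀ v : Fin (n j + 1), finrank ℂ (LinearMap.ker (compL c T (low d j)
      (fun l => decide (comp l = v)) (fun γ => roleOf (src γ) (tgt γ) (host γ) v) Z)) ≤ e v := by
    intro v
    refine (hZ v).trans ?_
    have := he v
    simpa using this
  -- the embedding
  set emb : Fin (n j + 1) ↪ Var n :=
    Function.Embedding.sigmaMk (β := fun i : Fin k => Fin (n i + 1)) j with hemb
  set e' : Var n → ℕ := Function.extend emb e 0 with he'
  have he'v : ∀ a, e' (emb a) = e a := fun a => emb.injective.extend_apply e 0 a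
  have hsurj : ∀ v : Var n, c v = j → ∃ a, emb a = v := by
    rintro ⟨i, a⟩ h
    change i = j at h
    subst h
    exact ⟨a, rfl⟩
  have hrole : ∀ (s t h v : Fin (n j + 1)), roleOf (emb s) (emb t) (emb h) (emb v) =
      roleOf s t h v := by
    intro s t h v
    unfold roleOf
    simp only [emb.injective.eq_iff]
  have hEcard : Fintype.card (Fin R ⊕ (Fin g × Fin 3)) = r := by
    rw [Fintype.card_sum, Fintype.card_prod, Fintype.card_fin, Fintype.card_fin, Fintype.card_fin]
    omega
  have hfin := hASM c T d j hj hjT hT3 (fun l => emb (comp l)) (fun γ => emb (src γ))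
    (fun γ => emb (tgt γ)) (fun γ => emb (host γ)) (A.map emb) e' Z (fun l => rfl)
    (fun γ => ⟨rfl, rfl, rfl⟩) (by
      intro γ
      obtain ⟨h1, h2, h3, h4⟩ := hst γ
      refine ⟨Finset.mem_map_of_mem _ h1, ?_, ?_, ?_⟩
      · rw [Finset.mem_map' emb]
        exact h2
      · exact fun h => h3 (emb.injective h)
      · exact fun h => h4 (emb.injective h)) (by
      intro v hv
      obtain ⟨a, rfl⟩ := hsurj v hv
      rw [he'v]
      have h1 := hZ' a
      have h2 : (fun l => decide (emb (comp l) = emb a)) = fun l => decide (comp l = a) := by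
        funext l
        rw [Bool.eq_iff_iff, decide_eq_true_iff, decide_eq_true_iff, emb.injective.eq_iff]
      have h3 : (fun γ => roleOf (emb (src γ)) (emb (tgt γ)) (emb (host γ)) (emb a)) =
          fun γ => roleOf (src γ) (tgt γ) (host γ) a := by
        funext γ
        exact hrole _ _ _ _
      rw [h2, h3]
      exact h1) (by
      intro v hv
      obtain ⟨a, ha, rfl⟩ := Finset.mem_map.1 hv
      rw [he'v]
      exact heA a ha) r (Fintype.equivFinOfCardEq hEcard).symm
  refine ⟨_, hfin.trans ?_⟩
  have hS : Finset.univ.filter (fun v : Var n => c v = j ∧ v ∉ A.map emb) =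
      (Finset.univ.filter (fun a => a ∉ A)).map emb := by
    ext v
    rw [Finset.mem_filter]
    constructor
    · rintro ⟨-, h1, h2⟩
      obtain ⟨a, rfl⟩ := hsurj v h1
      rw [Finset.mem_map' emb] at h2 ⊢
      exact Finset.mem_filter.2 ⟨Finset.mem_univ _, h2⟩
    · intro h
      obtain ⟨a, ha, rfl⟩ := Finset.mem_map.1 h
      refine ⟨Finset.mem_univ _, rfl, ?_⟩
      rw [Finset.mem_map' emb]
      exact (Finset.mem_filter.1 ha).2
  rw [hS, Finset.sum_map]
  simp only [he'v]
  exact hesum

end Pool.Agent.SG
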